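import Mathlib
set_option autoImplicit false
namespace Pool.Agent.Results.MP_fc7805_al.Counter

/-- index pairs `1 ≤ p < q ≤ n` -/
def Gen (n : ℕ) : Type := {x : ℕ × ℕ // 1 ≤ x.1 ∧ x.1 < x.2 ∧ x.2 ≤ n}

/-- the defining relators of the cactus group -/
def Rels (n : ℕ) : Set (FreeGroup (Gen n)) :=
  {w | (∃ a : Gen n, w = FreeGroup.of a * FreeGroup.of a) ∨
    (∃ a b : Gen n, (a.1.2 < b.1.1 ∨ b.1.2 < a.1.1) ∧
      w = FreeGroup.of a * FreeGroup.of b * (FreeGroup.of b * FreeGroup.of a)⁻¹) ∨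
    (∃ a b c : Gen n, a.1.1 ≤ b.1.1 ∧ b.1.2 ≤ a.1.2 ∧
      c.1 = (a.1.1 + a.1.2 - b.1.2, a.1.1 + a.1.2 - b.1.1) ∧
      w = FreeGroup.of a * FreeGroup.of b * (FreeGroup.of c * FreeGroup.of a)⁻¹)}

/-- the cactus group `J_n` -/
abbrev J (n : ℕ) := PresentedGroup (Rels n)

abbrev P := List ℕ

def rv (p q : ℕ) (l : P) : P := l.map fun i => if p ≤ i ∧ i ≤ q then p + q - i else i

def code (p q : ℕ) (l : P) : ℕ :=
  let m := l.map fun i => decide (p ≤ i ∧ i ≤ q)
  if m = [true, true, false, false, false] then 1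
  else if m = [true, false, true, false, false] then 2
  else if m = [false, false, false, true, true] then 3
  else if m = [true, true, true, true, false] then 4 else 0

def act (c : ℕ) (z : ℤ × ℤ) : ℤ × ℤ :=
  if c = 1 then (-z.1, z.2) else if c = 2 then (1 - z.1, z.2) else if c = 3 then (z.1, -z.2)
  else if c = 4 then (z.1, 1 - z.2) else z

def ok (c d : ℕ) : Prop := c = d ∨ c + d ≠ 3 ∧ c + d ≠ 7 ∨ c = 0 ∨ d = 0
instance (c d : ℕ) : Decidable (ok c d) := by unfold ok; infer_instance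

theorem act_act (c : ℕ) (z : ℤ × ℤ) : act c (act c z) = z := by
  unfold act; split_ifs <;> simp

theorem act_comm (c d : ℕ) (h : ok c d) (z : ℤ × ℤ) : act c (act d z) = act d (act c z) := by
  unfold ok at h; unfold act; split_ifs <;> first | rfl | omega

def S : List P := [1, 2, 3, 4, 5].permutations'

def c1 (l : P) (q p : ℕ) : Bool := rv p q (rv p q l) == l &&
  code p q (rv p q l) == code p q l

def c2 (l : P) (q p r m : ℕ) : Bool := rv p q (rv m r l) == rv m r (rv p q l) &&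
  code p q (rv m r l) == code p q l && code m r (rv p q l) == code m r l &&
  decide (ok (code p q l) (code m r l))

def c3 (l : P) (q p r m : ℕ) : Bool :=
  rv p q (rv m r l) == rv (p + q - r) (p + q - m) (rv p q l) &&
  code p q (rv m r l) == code p q l && code (p + q - r) (p + q - m) (rv p q l) == code m r l &&
  decide (ok (code p q l) (code m r l))

def PR : List (ℕ × ℕ) := [(1,2),(1,3),(1,4),(1,5),(2,3),(2,4),(2,5),(3,4),(3,5),(4,5)]

theorem pr {p q : ℕ} (h1 : q ≤ 5) (h2 : p < q) (h3 : 1 ≤ p) : (p, q) ∈ PR := by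
  interval_cases q <;> interval_cases p <;> simp [PR]

theorem k1 : (S.all fun l => PR.all fun a => c1 l a.2 a.1) = true := by decide +kernel
theorem k2 : (S.all fun l => PR.all fun a => PR.all fun b =>
    !(decide (a.2 < b.1)) || c2 l a.2 a.1 b.2 b.1) = true := by decide +kernel
theorem k3 : (S.all fun l => PR.all fun a => PR.all fun b =>
    !(decide (a.1 ≤ b.1 ∧ b.2 ≤ a.2)) || c3 l a.2 a.1 b.2 b.1) = true := by decide +kernel

theorem chk1 : ∀ l ∈ S, ∀ q ≤ 5, ∀ p < q, 1 ≤ p →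
    rv p q l ∈ S ∧ rv p q (rv p q l) = l ∧ code p q (rv p q l) = code p q l := by
  intro l hl q h1 p h2 h3
  have := List.all_eq_true.1 (List.all_eq_true.1 k1 l hl) _ (pr h1 h2 h3)
  refine ⟨?_, by simpa [c1, and_assoc] using this⟩
  refine List.mem_permutations'.2 (((List.mem_permutations'.1 hl).map _).trans ?_)
  interval_cases q <;> interval_cases p <;> decide

theorem chk2 : ∀ l ∈ S, ∀ q ≤ 5, ∀ p < q, 1 ≤ p → ∀ r ≤ 5, ∀ m < r, q < m →
    rv p q (rv m r l) = rv m r (rv p q l) ∧ code p q (rv m r l) = code p q l ∧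
    code m r (rv p q l) = code m r l ∧ ok (code p q l) (code m r l) := by
  intro l hl q h1 p h2 h3 r h4 m h5 h6
  have := List.all_eq_true.1 (List.all_eq_true.1 (List.all_eq_true.1 k2 l hl) _ (pr h1 h2 h3)) _
    (pr h4 h5 (by omega))
  simpa [c2, and_assoc, h6] using this

theorem chk3 : ∀ l ∈ S, ∀ q ≤ 5, ∀ p < q, 1 ≤ p → ∀ r ≤ q, ∀ m < r, p ≤ m →
    rv p q (rv m r l) = rv (p + q - r) (p + q - m) (rv p q l) ∧ code p q (rv m r l) = code p q l ∧
    code (p + q - r) (p + q - m) (rv p q l) = code m r l ∧ ok (code p q l) (code m r l) := by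
  intro l hl q h1 p h2 h3 r h4 m h5 h6
  have := List.all_eq_true.1 (List.all_eq_true.1 (List.all_eq_true.1 k3 l hl) _ (pr h1 h2 h3)) _
    (pr (h4.trans h1) h5 (by omega))
  simpa [c3, and_assoc, h6, h4] using this

abbrev St := {l : P // l ∈ S} × ℤ × ℤ

def fn (a : Gen 5) (s : St) : St :=
  (⟨rv a.1.1 a.1.2 s.1.1, (chk1 _ s.1.2 _ a.2.2.2 _ a.2.2.1 a.2.1).1⟩,
    act (code a.1.1 a.1.2 s.1.1) s.2)

theorem fn_inv (a : Gen 5) : Function.Involutive (fn a) := by
  intro s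
  obtain ⟨-, h1, h2⟩ := chk1 _ s.1.2 _ a.2.2.2 _ a.2.2.1 a.2.1
  refine Prod.ext (Subtype.ext h1) ?_
  show act (code _ _ (rv _ _ _)) (act _ _) = _
  rw [h2, act_act]

def pm (a : Gen 5) : Equiv.Perm St := (fn_inv a).toPerm

theorem fn2 (a b : Gen 5) (h : a.1.2 < b.1.1) : pm a * pm b = pm b * pm a := by
  ext1 s
  obtain ⟨h1, h2, h3, h4⟩ := chk2 _ s.1.2 _ a.2.2.2 _ a.2.2.1 a.2.1 _ b.2.2.2 _ b.2.2.1 h
  refine Prod.ext (Subtype.ext h1) ?_
  show act (code _ _ (rv _ _ _)) (act _ _) = act (code _ _ (rv _ _ _)) (act _ _)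
  rw [h2, h3, act_comm _ _ h4]

def rho : J 5 →* Equiv.Perm St := PresentedGroup.toGroup (f := pm) (by
  rintro w (⟨a, rfl⟩ | ⟨a, b, h, rfl⟩ | ⟨a, b, c, h1, h2, h3, rfl⟩)
  · simp only [map_mul, FreeGroup.lift_apply_of]
    exact Equiv.ext (fn_inv a)
  · simp only [map_mul, map_inv, FreeGroup.lift_apply_of, mul_inv_eq_one]
    rcases h with h | h
    · exact fn2 a b h
    · exact (fn2 b a h).symm
  · simp only [map_mul, map_inv, FreeGroup.lift_apply_of, mul_inv_eq_one]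
    ext1 s
    obtain ⟨h4, h5, h6, h7⟩ := chk3 _ s.1.2 _ a.2.2.2 _ a.2.2.1 a.2.1 _ h2 _ b.2.2.1 h1
    refine Prod.ext (Subtype.ext ?_) ?_
    · show rv _ _ (rv _ _ _) = rv _ _ (rv _ _ _)
      rw [h3]; exact h4
    · show act (code _ _ (rv _ _ _)) (act _ _) = act (code _ _ (rv _ _ _)) (act _ _)
      rw [h3, h5, h6, act_comm _ _ h7])

def g (p q : ℕ) (h : 1 ≤ p ∧ p < q ∧ q ≤ 5) : Gen 5 := ⟨(p, q), h⟩
def g12 : Gen 5 := g 1 2 (by decide)
def g13 : Gen 5 := g 1 3 (by decide)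
def g14 : Gen 5 := g 1 4 (by decide)
def g15 : Gen 5 := g 1 5 (by decide)
def g23 : Gen 5 := g 2 3 (by decide)
def g24 : Gen 5 := g 2 4 (by decide)
def g25 : Gen 5 := g 2 5 (by decide)
def g34 : Gen 5 := g 3 4 (by decide)
def g35 : Gen 5 := g 3 5 (by decide)
def g45 : Gen 5 := g 4 5 (by decide)
def s (a : Gen 5) : J 5 := PresentedGroup.of a

theorem r2 (a b : Gen 5) (h : a.1.2 < b.1.1 ∨ b.1.2 < a.1.1) :
    s a * s b = s b * s a :=
  mul_inv_eq_one.1 (PresentedGroup.one_of_mem (rels := Rels 5) (Or.inr (Or.inl ⟨a, b, h, rfl⟩)))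

theorem r3 (a b c : Gen 5) (h : a.1.1 ≤ b.1.1 ∧ b.1.2 ≤ a.1.2 ∧
    c.1 = (a.1.1 + a.1.2 - b.1.2, a.1.1 + a.1.2 - b.1.1)) : s a * s b = s c * s a :=
  mul_inv_eq_one.1 (PresentedGroup.one_of_mem (rels := Rels 5)
    (Or.inr (Or.inr ⟨a, b, c, h.1, h.2.1, h.2.2, rfl⟩)))

def A : J 5 := (s g13 * s g12) * (s g13 * s g12) * (s g13 * s g12)
def B : J 5 := s g13 * (s g14 * (s g25 * (s g15 * s g45)))

theorem sc {a b c d e f : J 5} (h1 : a * b = c * a) (h2 : d * e = b * d) (_ : f = f) :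
    (a * d) * e = c * (a * d) := by rw [mul_assoc, h2, ← mul_assoc, h1, mul_assoc]

theorem AB : Commute A B := by
  have h1 : Commute (s g12) B := (sc (r3 g13 g23 g12 (by decide)) (sc (r3 g14 g23 g23 (by decide))
    (sc (r3 g25 g45 g23 (by decide)) (sc (r3 g15 g12 g45 (by decide)) (r2 g45 g12 (by decide))
      (rfl : A = A)) (rfl : A = A)) (rfl : A = A)) (rfl : A = A)).symm
  have h2 : Commute (s g13) B := (sc (r3 g13 g13 g13 (by decide)) (sc (r3 g14 g24 g13 (by decide))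
    (sc (r3 g25 g35 g24 (by decide)) (sc (r3 g15 g13 g35 (by decide)) (r2 g45 g13 (by decide))
      (rfl : A = A)) (rfl : A = A)) (rfl : A = A)) (rfl : A = A)).symm
  exact ((h2.mul_left h1).mul_left (h2.mul_left h1)).mul_left (h2.mul_left h1)

def l0 : {l : P // l ∈ S} := ⟨[1, 2, 3, 4, 5], List.mem_permutations'.2 (List.Perm.refl _)⟩

theorem rs (a : Gen 5) (x : St) : rho (s a) x = fn a x := by
  simp only [rho, s, PresentedGroup.toGroup.of]; rfl

theorem rA (x y : ℤ) : rho A (l0, x, y) = (l0, x + 1, y) := by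
  simp [A, rs, fn, g, g12, g13, g14, g15, g25, g45, l0, rv, code, act, add_comm]

theorem rB (x y : ℤ) : rho B (l0, x, y) = (l0, x, y + 1) := by
  simp [B, rs, fn, g, g12, g13, g14, g15, g25, g45, l0, rv, code, act, add_comm]

theorem zp (f : Equiv.Perm St) (e : ℤ → St) (h : ∀ x, f (e x) = e (x + 1)) (n : ℤ) :
    ∀ x, (f ^ n) (e x) = e (x + n) := by
  induction n using Int.induction_on with
  | zero => simp
  | succ n ih => intro x; rw [zpow_add_one, Equiv.Perm.mul_apply, h, ih]; congr 1; ring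
  | pred n ih =>
    intro x
    have : f⁻¹ (e x) = e (x - 1) := by rw [Equiv.Perm.inv_eq_iff_eq, h]; simp
    rw [zpow_sub_one, Equiv.Perm.mul_apply, this, ih]; congr 1; ring

theorem result : ∃ φ : Multiplicative (Fin 2 → ℤ) →* J 5, Function.Injective φ := by
  refine ⟨MonoidHom.mk' (fun v => A ^ (v.toAdd 0) * B ^ (v.toAdd 1)) fun v w => ?_, ?_⟩
  · simp only [toAdd_mul, Pi.add_apply, zpow_add]
    exact (AB.zpow_zpow _ _).mul_mul_mul_comm _ _
  · rw [injective_iff_map_eq_one]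
    intro v hv
    have h := congrArg (fun z => rho z (l0, 0, 0)) hv
    simp only [MonoidHom.mk'_apply, map_mul, map_zpow, Equiv.Perm.mul_apply, map_one,
      Equiv.Perm.one_apply] at h
    rw [zp (rho B) (fun y => (l0, 0, y)) (rB 0), zp (rho A) (fun x => (l0, x, _)) (fun x => rA x _)]
      at h
    simp only [zero_add, Prod.mk.injEq, true_and] at h
    ext i
    fin_cases i
    · exact h.1
    · exact h.2

end Pool.Agent.Results.MP_fc7805_al.Counter
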